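import Pool.Agent.H328R3.UTDJoin
import Mathlib

/-!
Graphs whose upper total domination number is twice the upper domination number: they are the
graphs with an induced matching having as many edges as the upper domination number.
-/

set_option autoImplicit false

namespace Pool.Agent.Results.MP_5135a5_co.InducedMatching

open Pool.Agent.H328R3.UTD

/-- The characterisation, with the structure of the extremal sets. -/
def Characterisation (V : Type) [Fintype V] (G : SimpleGraph V) : Prop :=
  (GamT G = 2 * Gam G ↔ ∃ x y : Fin (Gam G) → V, IsIM G x y) ∧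
  (∀ x y : Fin (Gam G) → V, IsIM G x y → ∀ v, (∀ i, v ≠ x i ∧ v ≠ y i) →
    ∃ i, G.Adj v (x i) ∧ G.Adj v (y i)) ∧
  (∀ S : Finset V, (IsMin (TDom G) S ∧ S.card = 2 * Gam G) ↔
    ∃ x y : Fin (Gam G) → V, IsIM G x y ∧ ∀ v, v ∈ S ↔ ∃ i, v = x i ∨ v = y i)

/-- (1) For every finite graph `G` without isolated vertices, `Γ_t(G) = 2 Γ(G)` if and only if `G`
has an induced matching with `Γ(G)` edges. For such a matching every other vertex is adjacent to
both ends of some edge of the matching. The minimal total dominating sets with `2 Γ(G)` vertices are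
exactly the vertex sets of the induced matchings with `Γ(G)` edges.
(2) For every finite graph `H` and every `k ≥ 2` the join of `k K₂` with the disjoint union of `H`
and a vertex has no isolated vertices, and it satisfies `Γ_t = 2 Γ` if and only if `Γ(H) < k`. -/
theorem result :
    (∀ (V : Type) [Fintype V] (G : SimpleGraph V), (∀ v, ∃ u, G.Adj v u) →
      Characterisation V G) ∧
    ∀ (A : Type) [Fintype A] (H : SimpleGraph A) (k : ℕ), 2 ≤ k →
      (∀ v, ∃ u, (joinK (addIso H) k).Adj v u) ∧
      (GamT (joinK (addIso H) k) = 2 * Gam (joinK (addIso H) k) ↔ Gam H < k) := by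
  refine ⟨fun V _ G hG => ⟨char G hG, fun x y h v hv => both_ends G h v hv, fun S => ⟨?_, ?_⟩⟩,
    fun A _ H k hk => ⟨?_, ?_⟩⟩
  · rintro ⟨h1, h2⟩
    exact matching_of_card G h1 h2
  · rintro ⟨x, y, h1, h2⟩
    exact isMin_of_matching G h1 S h2
  · rintro (v | v)
    · exact ⟨Sum.inr (⟨0, by omega⟩, true), trivial⟩
    · exact ⟨Sum.inl none, trivial⟩
  · rw [joinK_iff (addIso H) none (by
      rintro u ⟨a, b, h, _⟩
      exact absurd h (by simp)) k hk, gam_addIso]
    omega

end Pool.Agent.Results.MP_5135a5_co.InducedMatching
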